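import Mathlib
import Pool.Agent.H367R3.ColGraph2

set_option autoImplicit false

/-! Decks of chordal graphs: counting shifts. -/

namespace Pool.Agent.helper529_deck

open Polynomial Pool.Agent.H367R3

/-- the polynomial of a list of shifts -/
noncomputable def P (l : List ℕ) : ℤ[X] := (l.map (fun j : ℕ => (X - C (j : ℤ)))).prod

theorem eval_P (k : ℕ) : ∀ l : List ℕ, (∀ x ∈ l, x ≤ k) →
    (P l).eval (k : ℤ) = (ColGraph.val k l : ℤ)
  | [], _ => by simp [P, ColGraph.val]
  | (x :: l), h => by
      have ih := eval_P k l (fun y hy => h y (List.mem_cons_of_mem _ hy))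
      have hx := h x List.mem_cons_self
      have h1 : P (x :: l) = (X - C (x : ℤ)) * P l := by simp [P]
      have h2 : ColGraph.val k (x :: l) = (k - x) * ColGraph.val k l := by simp [ColGraph.val]
      rw [h1, h2, eval_mul, ih]
      push_cast [Nat.cast_sub hx]
      simp

theorem perm_of_val (l1 l2 : List ℕ) (h : ∀ k, ColGraph.val k l1 = ColGraph.val k l2) :
    l1.Perm l2 := by
  have hP : P l1 = P l2 := by
    apply Polynomial.eq_of_infinite_eval_eq
    have hinf : (Set.range fun k : ℕ => ((k + l1.sum + l2.sum : ℕ) : ℤ)).Infinite := by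
      apply Set.infinite_range_of_injective
      intro a b hab
      simp only [Nat.cast_inj] at hab
      omega
    apply hinf.mono
    rintro _ ⟨k, rfl⟩
    show eval _ _ = eval _ _
    rw [eval_P _ l1, eval_P _ l2, h]
    · intro x hx
      have := List.single_le_sum (l := l2) (fun _ _ => Nat.zero_le _) x hx
      omega
    · intro x hx
      have := List.single_le_sum (l := l1) (fun _ _ => Nat.zero_le _) x hx
      omega
  have key : ∀ l : List ℕ, (P l).roots = ((l : Multiset ℕ).map (fun j : ℕ => (j : ℤ))) := by
    intro l
    have : P l = (((l : Multiset ℕ).map (fun j : ℕ => (j : ℤ))).map (fun a => X - C a)).prod := by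
      rw [Multiset.map_map, Multiset.map_coe, Multiset.prod_coe]
      rfl
    rw [this, Polynomial.roots_multiset_prod_X_sub_C]
  have h3 := congrArg Polynomial.roots hP
  rw [key, key] at h3
  have hinj : Function.Injective (fun j : ℕ => (j : ℤ)) := fun a b hab => Nat.cast_injective (R := ℤ) hab
  exact Multiset.coe_eq_coe.1 (Multiset.map_injective hinj h3)

/-- the sum of the counts over the deck -/
theorem sum_count (R : ℕ → ℕ → Bool) (d : ℕ → ℕ) (j : ℕ) : ∀ n : ℕ,
    (∀ i < n, ColGraph.dg R i = d i) →
    (((∑ u : Fin n, (ColGraph.Dl R d u n).count j : ℕ)) : ℤ) =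
      ((n : ℤ) - j) * ((ColGraph.Cl d n).count j : ℤ) + j * ((ColGraph.Cl d n).count (j - 1) : ℤ)
  | 0, _ => by simp [ColGraph.Cl]
  | (n + 1), hd => by
      have ih := sum_count R d j n (fun i hi => hd i (Nat.lt_succ_of_lt hi))
      have hdn := hd n (Nat.lt_succ_self n)
      have hle : d n ≤ n := by
        rw [← hdn]
        unfold ColGraph.dg
        exact (Finset.card_filter_le _ _).trans (by simp)
      rw [Fin.sum_univ_castSucc]
      have e1 : ∀ u : Fin n, (ColGraph.Dl R d (u.castSucc : Fin (n + 1)) (n + 1)).count j =
          (ColGraph.Dl R d u n).count j +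
            (if R n u = true then (if d n + 1 = j then 1 else 0) else (if d n = j then 1 else 0)) := by
        intro u
        have hu : (u : ℕ) < n := u.2
        rw [Fin.val_castSucc]
        simp only [ColGraph.Dl, hu, if_true, List.count_cons]
        by_cases hR : R n u = true <;> simp [hR]
      have e2 : (ColGraph.Dl R d (Fin.last n : Fin (n + 1)) (n + 1)).count j =
          (ColGraph.Cl d n).count j + (if d n + 1 = j then 1 else 0) + (if d n = j then 1 else 0) := by
        simp only [ColGraph.Dl, Fin.val_last, lt_irrefl, if_false, List.count_cons]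
        simp
      rw [Finset.sum_congr rfl (fun u _ => e1 u), Finset.sum_add_distrib, e2, Finset.sum_ite,
        Finset.sum_const, Finset.sum_const]
      have hc1 : ((Finset.univ : Finset (Fin n)).filter (fun u : Fin n => R n u = true)).card = d n := by
        rw [← hdn]
        rfl
      have hc2 : ((Finset.univ : Finset (Fin n)).filter (fun u : Fin n => ¬ R n u = true)).card =
          n - d n := by
        have := Finset.card_filter_add_card_filter_not (s := (Finset.univ : Finset (Fin n)))
          (fun u : Fin n => R n u = true)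
        rw [hc1, Finset.card_univ, Fintype.card_fin] at this
        omega
      rw [hc1, hc2]
      have e3 : (ColGraph.Cl d (n + 1)).count j = (ColGraph.Cl d n).count j +
          (if d n = j then 1 else 0) := by
        simp [ColGraph.Cl, List.count_cons]
      have e4 : (ColGraph.Cl d (n + 1)).count (j - 1) = (ColGraph.Cl d n).count (j - 1) +
          (if d n = j - 1 then 1 else 0) := by
        simp [ColGraph.Cl, List.count_cons]
      rw [e3, e4]
      generalize hA : (ColGraph.Cl d n).count j = A at *
      generalize hB : (ColGraph.Cl d n).count (j - 1) = B at *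
      push_cast [Nat.cast_sub hle]
      push_cast at ih
      rw [ih]
      by_cases h1 : d n = j
      · have h2 : ¬ (d n + 1 = j) := by omega
        rcases Nat.eq_zero_or_pos j with h0 | h0
        · subst h0
          simp [h1]
          ring
        · have h3 : ¬ (d n = j - 1) := by omega
          simp only [if_pos h1, if_neg h2, if_neg h3, smul_eq_mul]
          have h5 : (d n : ℤ) = j := by exact_mod_cast h1
          push_cast [Nat.cast_sub hle]
          rw [h5]
          ring
      · by_cases h2 : d n + 1 = j
        · have h3 : d n = j - 1 := by omega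
          have h4 : (j : ℤ) = (d n : ℤ) + 1 := by
            rw [← h2]
            push_cast
            ring
          simp only [if_neg h1, if_pos h2, if_pos h3, smul_eq_mul]
          push_cast
          rw [h4]
          ring
        · have h3 : ¬ (d n = j - 1) := by
            intro h
            omega
          simp only [if_neg h1, if_neg h2, if_neg h3, smul_eq_mul]
          push_cast
          ring

theorem Cl_lt (d : ℕ → ℕ) (m : ℕ) : ∀ n : ℕ, (∀ i < n, d i ≤ i) → n ≤ m →
    (ColGraph.Cl d n).count m = 0
  | 0, _, _ => by simp [ColGraph.Cl]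
  | (n + 1), hd, hm => by
      have ih := Cl_lt d m n (fun i hi => hd i (Nat.lt_succ_of_lt hi)) (by omega)
      have := hd n (Nat.lt_succ_self n)
      simp only [ColGraph.Cl, List.count_cons, ih]
      have h : d n ≠ m := by omega
      simp [h]

theorem dg_le (R : ℕ → ℕ → Bool) (i : ℕ) : ColGraph.dg R i ≤ i := by
  unfold ColGraph.dg
  exact (Finset.card_filter_le _ _).trans (by simp)

/-- For graphs with a perfect elimination ordering the numbers of pairs of colourings that differ
at one given vertex determine the numbers of colourings. -/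
theorem main (R1 R2 : ℕ → ℕ → Bool) (n : ℕ) (h1 : ∀ i < n, ColGraph.PEO R1 i)
    (h2 : ∀ i < n, ColGraph.PEO R2 i) (σ : Fin n ≃ Fin n)
    (h : ∀ k u, (ColGraph.DD R1 k n u).card = (ColGraph.DD R2 k n (σ u)).card) (k : ℕ) :
    (ColGraph.PC R1 k n).card = (ColGraph.PC R2 k n).card := by
  have hperm : ∀ u : Fin n, (ColGraph.Dl R1 (ColGraph.dg R1) u n).Perm
      (ColGraph.Dl R2 (ColGraph.dg R2) (σ u) n) := by
    intro u
    apply perm_of_val
    intro k
    rw [← ColGraph.card_DD (d := ColGraph.dg R1) n u h1 (fun _ _ => rfl),
      ← ColGraph.card_DD (d := ColGraph.dg R2) n (σ u) h2 (fun _ _ => rfl)]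
    exact h k u
  have hsum : ∀ j, ∑ u : Fin n, (ColGraph.Dl R1 (ColGraph.dg R1) u n).count j =
      ∑ u : Fin n, (ColGraph.Dl R2 (ColGraph.dg R2) u n).count j := by
    intro j
    rw [← Equiv.sum_comp σ (fun u : Fin n => (ColGraph.Dl R2 (ColGraph.dg R2) u n).count j)]
    exact Finset.sum_congr rfl (fun u _ => (hperm u).count_eq j)
  have hcount : ∀ j, (ColGraph.Cl (ColGraph.dg R1) n).count j =
      (ColGraph.Cl (ColGraph.dg R2) n).count j := by
    intro j
    induction j with
    | zero =>
      rcases Nat.eq_zero_or_pos n with hn | hn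
      · subst hn
        simp [ColGraph.Cl]
      · have e1 := sum_count R1 (ColGraph.dg R1) 0 n (fun _ _ => rfl)
        have e2 := sum_count R2 (ColGraph.dg R2) 0 n (fun _ _ => rfl)
        rw [hsum 0, e2] at e1
        simp only [Nat.cast_zero, sub_zero, zero_mul, add_zero] at e1
        have hn' : (n : ℤ) ≠ 0 := by exact_mod_cast hn.ne'
        have := mul_left_cancel₀ hn' e1
        exact_mod_cast this.symm
    | succ j ih =>
      rcases Nat.lt_or_ge (j + 1) n with hn | hn
      · have e1 := sum_count R1 (ColGraph.dg R1) (j + 1) n (fun _ _ => rfl)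
        have e2 := sum_count R2 (ColGraph.dg R2) (j + 1) n (fun _ _ => rfl)
        rw [hsum (j + 1), e2, Nat.add_sub_cancel, ih] at e1
        have hn' : (n : ℤ) - ((j + 1 : ℕ) : ℤ) ≠ 0 := by
          have : ((j + 1 : ℕ) : ℤ) < n := by exact_mod_cast hn
          omega
        have := mul_left_cancel₀ hn' (add_right_cancel e1)
        exact_mod_cast this.symm
      · rw [Cl_lt _ _ n (fun i _ => dg_le R1 i) hn, Cl_lt _ _ n (fun i _ => dg_le R2 i) hn]
  have hp : (ColGraph.Cl (ColGraph.dg R1) n).Perm (ColGraph.Cl (ColGraph.dg R2) n) := by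
    rw [List.perm_iff_count]
    exact hcount
  rw [ColGraph.card_PC (d := ColGraph.dg R1) n h1 (fun _ _ => rfl),
    ColGraph.card_PC (d := ColGraph.dg R2) n h2 (fun _ _ => rfl)]
  unfold ColGraph.val
  exact (hp.map _).prod_eq

end Pool.Agent.helper529_deck
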